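import Mathlib

/-!
The set of ideal limit points of a sequence is a countable union of closed sets whenever the
ideal is a countable intersection of countable unions of closed sets.

Suppose it is not.  Call a set small when it is covered by countably many closed sets of limit
points.  A set of limit points that is not small accumulates, in a not small way, at a point `q`
that is not a limit point.  At `q` a Baire category argument decides membership in one more of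
the countably many unions of closed sets.  Running this alternately for two sets produces two
members of the ideal that cover a set outside the ideal.
-/

set_option autoImplicit false

open Set Filter Topology

namespace Pool.Agent.Lib.MP_d33a1c_lc

/-- A family of subsets of `ℕ` that is closed in the Cantor topology. -/
def Clsd (K : Set (Set ℕ)) : Prop :=
  ∀ A, A ∉ K → ∃ l : ℕ, ∀ B : Set ℕ, (∀ n, n < l → (n ∈ B ↔ n ∈ A)) → B ∉ K

lemma diff_diff_of_subset {A D D' : Set ℕ} (h : D' ⊆ D) : (A \ D') \ D = A \ D := by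
  ext n
  constructor
  · rintro ⟨⟨h1, _⟩, h3⟩
    exact ⟨h1, h3⟩
  · rintro ⟨h1, h3⟩
    exact ⟨⟨h1, fun h2 => h3 (h h2)⟩, h3⟩

lemma limit_diff (D c : ℕ → Set ℕ) (hD : ∀ s, D (s + 1) ⊆ D s)
    (hc : ∀ s, c (s + 1) \ D s = c s) (s : ℕ) : (⋃ t, c t) \ D s = c s := by
  have hanti : Antitone D := antitone_nat_of_succ_le hD
  have hmono : Monotone c := monotone_nat_of_le_succ fun t => by
    rw [← hc t]; exact sdiff_subset
  have hge : ∀ t, s ≤ t → c (t + 1) \ D s = c s := by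
    intro t ht
    induction t, ht using Nat.le_induction with
    | base => exact hc s
    | succ t ht ih =>
      rw [← diff_diff_of_subset (A := c (t + 1 + 1)) (hanti (show s ≤ t + 1 by omega)), hc, ih]
  ext n
  constructor
  · rintro ⟨h1, h2⟩
    obtain ⟨t, ht⟩ := mem_iUnion.1 h1
    rw [← hge (max s t) (le_max_left _ _)]
    exact ⟨hmono (show t ≤ max s t + 1 by omega) ht, h2⟩
  · intro h
    refine ⟨mem_iUnion.2 ⟨s, h⟩, ?_⟩
    rw [← hc s] at h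
    exact h.2

/-- Dependent choice along `ℕ` with a step that may depend on the index. -/
lemma exists_seq {σ : Type*} (P : σ → Prop) (R : ℕ → σ → σ → Prop) (x0 : σ) (h0 : P x0)
    (hstep : ∀ n x, P x → ∃ y, P y ∧ R n x y) :
    ∃ f : ℕ → σ, f 0 = x0 ∧ (∀ n, P (f n)) ∧ ∀ n, R n (f n) (f (n + 1)) := by
  choose g hg1 hg2 using hstep
  let f : ℕ → {x // P x} := fun n =>
    Nat.rec ⟨x0, h0⟩ (fun n x => ⟨g n x.1 x.2, hg1 n x.1 x.2⟩) n
  exact ⟨fun n => (f n).1, rfl, fun n => (f n).2, fun n => hg2 n (f n).1 (f n).2⟩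

/-- The Baire category step at a point that is not a limit point. -/
lemma key (K : ℕ → Set (Set ℕ)) (hK : ∀ j, Clsd (K j)) (E : ℕ → Set ℕ) (hE : Antitone E)
    (hEk : ∀ k, ∀ n ∈ E k, k ≤ n)
    (hall : ∀ A : Set ℕ, (∀ k, (A \ E k).Finite) → ∃ j, A ∈ K j)
    (k0 : ℕ) (c : Set ℕ) (hc : c.Finite) (hcd : c \ E k0 = c) :
    ∃ k c', k0 ≤ k ∧ c'.Finite ∧ c' \ E k = c' ∧ c' \ E k0 = c ∧
      ∃ j, ∀ A : Set ℕ, A \ E k = c' → A ∈ K j := by
  by_contra hcon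
  push Not at hcon
  have hstep : ∀ (m : ℕ) (x : ℕ × Set ℕ),
      (k0 ≤ x.1 ∧ x.2.Finite ∧ x.2 \ E x.1 = x.2 ∧ x.2 \ E k0 = c) →
      ∃ y : ℕ × Set ℕ, (k0 ≤ y.1 ∧ y.2.Finite ∧ y.2 \ E y.1 = y.2 ∧ y.2 \ E k0 = c) ∧
        (x.1 < y.1 ∧ y.2 \ E x.1 = x.2 ∧ ∀ A : Set ℕ, A \ E y.1 = y.2 → A ∉ K m) := by
    rintro m ⟨k, a⟩ ⟨h1, h2, h3, h4⟩
    dsimp only at h1 h2 h3 h4
    obtain ⟨A, hA, hAK⟩ := hcon k a h1 h2 h3 h4 m
    obtain ⟨l, hl⟩ := hK m A hAK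
    have hsub : E (max l (k + 1)) ⊆ E k := hE (by omega)
    have e1 : (a ∪ (A ∩ E k ∩ Iio l)) \ E k = a := by
      rw [union_sdiff_distrib, h3]
      refine union_eq_left.2 ?_
      rintro n ⟨⟨⟨_, hn⟩, _⟩, hn'⟩
      exact absurd hn hn'
    refine ⟨(max l (k + 1), a ∪ (A ∩ E k ∩ Iio l)), ⟨?_, ?_, ?_, ?_⟩, ?_, e1, ?_⟩
    · dsimp only; omega
    · exact h2.union ((finite_Iio l).subset inter_subset_right)
    · dsimp only
      refine sdiff_eq_left.2 (disjoint_left.2 ?_)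
      rintro n (hn | ⟨_, hn⟩) hn'
      · rw [← h3] at hn
        exact hn.2 (hsub hn')
      · have := hEk _ n hn'
        have h5 : n < l := hn
        omega
    · dsimp only
      rw [← diff_diff_of_subset (hE h1), e1, h4]
    · dsimp only; omega
    · intro B hB
      dsimp only at hB
      refine hl B fun n hn => ?_
      have hnE : n ∉ E (max l (k + 1)) := fun h => by
        have := hEk _ n h
        omega
      constructor
      · intro hnB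
        have : n ∈ a ∪ (A ∩ E k ∩ Iio l) := hB ▸ ⟨hnB, hnE⟩
        rcases this with h | h
        · rw [← hA] at h
          exact h.1
        · exact h.1.1
      · intro hnA
        have : n ∈ a ∪ (A ∩ E k ∩ Iio l) := by
          by_cases h : n ∈ E k
          · exact Or.inr ⟨⟨hnA, h⟩, hn⟩
          · exact Or.inl (hA ▸ ⟨hnA, h⟩)
        rw [← hB] at this
        exact this.1
  obtain ⟨f, -, hP, hR⟩ := exists_seq _ _ (k0, c) ⟨le_rfl, hc, hcd, hcd⟩ hstep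
  have hlim := limit_diff (fun s => E (f s).1) (fun s => (f s).2)
    (fun s => hE (hR s).1.le) (fun s => (hR s).2.1)
  have hsm : StrictMono fun s => (f s).1 := strictMono_nat_of_lt_succ fun s => (hR s).1
  obtain ⟨j, hj⟩ := hall (⋃ t, (f t).2) fun k => by
    refine (hP k).2.1.subset ?_
    rw [← hlim k]
    exact sdiff_subset_sdiff_right (hE (hsm.id_le k))
  exact (hR j).2.2 _ (hlim (j + 1)) hj

section Small

variable {X : Type*} [TopologicalSpace X]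

/-- `Y` is covered by countably many closed subsets of `L`. -/
def Small (L Y : Set X) : Prop :=
  ∃ S : Set (Set X), S.Countable ∧ (∀ s ∈ S, IsClosed s ∧ s ⊆ L) ∧ Y ⊆ ⋃₀ S

lemma Small.mono {L Y Y' : Set X} (h : Small L Y) (hs : Y' ⊆ Y) : Small L Y' := by
  obtain ⟨S, h1, h2, h3⟩ := h
  exact ⟨S, h1, h2, hs.trans h3⟩

lemma small_empty (L : Set X) : Small L ∅ :=
  ⟨∅, countable_empty, by simp, empty_subset _⟩

lemma small_biUnion {ι : Type*} {L : Set X} {T : Set ι} (hT : T.Countable) (Y : ι → Set X)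
    (h : ∀ i ∈ T, Small L (Y i)) : Small L (⋃ i ∈ T, Y i) := by
  choose! S h1 h2 h3 using h
  refine ⟨⋃ i ∈ T, S i, hT.biUnion h1, ?_, ?_⟩
  · intro s hs
    obtain ⟨i, hi, hs⟩ := mem_iUnion₂.1 hs
    exact h2 i hi s hs
  · intro y hy
    obtain ⟨i, hi, hy⟩ := mem_iUnion₂.1 hy
    obtain ⟨s, hs, hy⟩ := h3 i hi hy
    exact ⟨s, mem_iUnion₂.2 ⟨i, hi, hs⟩, hy⟩

lemma Small.union {L Y Y' : Set X} (h : Small L Y) (h' : Small L Y') : Small L (Y ∪ Y') := by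
  obtain ⟨S, h1, h2, h3⟩ := h
  obtain ⟨S', h1', h2', h3'⟩ := h'
  refine ⟨S ∪ S', h1.union h1', ?_, ?_⟩
  · rintro s (hs | hs)
    · exact h2 s hs
    · exact h2' s hs
  · rw [sUnion_union]
    exact union_subset_union h3 h3'

lemma exists_fiber {ι : Type*} {L Y : Set X} (hY : ¬ Small L Y) (f : X → ι) {T : Set ι}
    (hT : T.Countable) (hf : ∀ y ∈ Y, f y ∈ T) :
    ∃ b ∈ T, ¬ Small L {y ∈ Y | f y = b} := by
  by_contra hcon
  push Not at hcon
  refine hY ((small_biUnion hT _ hcon).mono ?_)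
  intro y hy
  exact mem_iUnion₂.2 ⟨f y, hf y hy, hy, rfl⟩

lemma exists_point [SecondCountableTopology X] {L Y : Set X} (hY : ¬ Small L Y) :
    ∃ q, q ∉ L ∧ ∀ V ∈ 𝓝 q, ¬ Small L (Y ∩ V) := by
  set T : Set (Set X) := {V ∈ TopologicalSpace.countableBasis X | Small L (Y ∩ V)} with hT
  have hTc : T.Countable :=
    (TopologicalSpace.countable_countableBasis X).mono fun V hV => hV.1
  have hO : IsOpen (⋃₀ T) :=
    isOpen_sUnion fun V hV => TopologicalSpace.isOpen_of_mem_countableBasis hV.1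
  have h1 : Small L (⋃ V ∈ T, Y ∩ V) := small_biUnion hTc _ fun V hV => hV.2
  by_contra hcon
  push Not at hcon
  have h2 : (⋃₀ T)ᶜ ⊆ L := by
    intro q hq
    by_contra hqL
    obtain ⟨V, hV, hs⟩ := hcon q hqL
    obtain ⟨W, hW, hqW, hWV⟩ :=
      (TopologicalSpace.isBasis_countableBasis X).mem_nhds_iff.1 hV
    exact hq ⟨W, ⟨hW, hs.mono (inter_subset_inter_right _ hWV)⟩, hqW⟩
  have h3 : Small L (⋃₀ T)ᶜ :=
    ⟨{(⋃₀ T)ᶜ}, countable_singleton _, by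
      rintro s rfl
      exact ⟨hO.isClosed_compl, h2⟩, by simp⟩
  refine hY ((h1.union h3).mono ?_)
  intro y hy
  by_cases hyT : y ∈ ⋃₀ T
  · obtain ⟨V, hV, hyV⟩ := hyT
    exact Or.inl (mem_iUnion₂.2 ⟨V, hV, hy, hyV⟩)
  · exact Or.inr hyT

end Small

lemma tendsto_iff {X : Type*} [TopologicalSpace X] (x : ℕ → X) (A : Set ℕ) (q : X) :
    Tendsto x (atTop ⊓ 𝓟 A) (𝓝 q) ↔ ∀ V ∈ 𝓝 q, (A \ x ⁻¹' V).Finite := by
  rw [← Nat.cofinite_eq_atTop]
  refine forall₂_congr fun V _ => ?_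
  rw [mem_map, mem_inf_principal, mem_cofinite]
  have : {n | n ∈ A → n ∈ x ⁻¹' V}ᶜ = A \ x ⁻¹' V := by
    ext n
    simp
  rw [this]

/-- A state of the construction. -/
structure St (X : Type*) where
  Y : Set X
  D : Set ℕ
  b : Set ℕ
  c : Set ℕ
  d : Set ℕ

section Main

variable {X : Type*} [TopologicalSpace X] [SecondCountableTopology X]

/-- The invariant of the construction. -/
def Inv (L Y0 : Set X) (A : X → Set ℕ) (s : St X) : Prop :=
  ¬ Small L s.Y ∧ s.Y ⊆ Y0 ∧ (∀ y ∈ s.Y, A y \ s.D = s.b) ∧ s.b.Finite ∧ s.c.Finite ∧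
    s.d.Finite ∧ s.c \ s.D = s.c ∧ s.d \ s.D = s.d ∧ s.b ⊆ s.c ∪ s.d

lemma one_step (x : ℕ → X) (L Y0 : Set X) (A : X → Set ℕ)
    (hA : ∀ y ∈ Y0, Tendsto x (atTop ⊓ 𝓟 (A y)) (𝓝 y))
    (K : ℕ → Set (Set ℕ)) (hK : ∀ j, Clsd (K j))
    (hL : ∀ q, q ∉ L → ∀ B : Set ℕ, Tendsto x (atTop ⊓ 𝓟 B) (𝓝 q) → ∃ j, B ∈ K j)
    (M : Set (Set ℕ)) (hM : Clsd M) (hAM : ∀ y ∈ Y0, A y ∉ M)
    (s : St X) (hs : Inv L Y0 A s) :
    ∃ t : St X, Inv L Y0 A t ∧ t.D ⊆ s.D ∧ t.b \ s.D = s.b ∧ t.c \ s.D = s.c ∧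
      t.d \ s.D = s.d ∧ (∃ j, ∀ B : Set ℕ, B \ t.D = t.c → B ∈ K j) ∧
      ∀ B : Set ℕ, B \ t.D = t.b → B ∉ M := by
  obtain ⟨Y, D, b, c, d⟩ := s
  obtain ⟨hY, hY0, hb, hbf, hcf, hdf, hcD, hdD, hcov⟩ := hs
  dsimp only at hY hY0 hb hbf hcf hdf hcD hdD hcov
  choose! l hl using fun y (hy : y ∈ Y0) => hM (A y) (hAM y hy)
  obtain ⟨l0, -, hY1⟩ := exists_fiber hY l countable_univ (fun _ _ => mem_univ _)
  obtain ⟨q, hqL, hq⟩ := exists_point hY1
  obtain ⟨V, hV⟩ := (𝓝 q).exists_antitone_basis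
  let E : ℕ → Set ℕ := fun k => if k = 0 then D else D ∩ x ⁻¹' V k ∩ Ici (max k l0)
  have hE0 : E 0 = D := if_pos rfl
  have hEp : ∀ k, k ≠ 0 → E k = D ∩ x ⁻¹' V k ∩ Ici (max k l0) := fun k hk => if_neg hk
  have hED : ∀ k, E k ⊆ D := by
    intro k
    by_cases hk : k = 0
    · rw [hk, hE0]
    · rw [hEp k hk]
      exact fun n hn => hn.1.1
  have hanti : Antitone E := by
    intro k k' hkk'
    by_cases hk : k = 0
    · rw [hk, hE0]
      exact hED k'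
    · rw [hEp k hk, hEp k' (by omega)]
      rintro n ⟨⟨h1, h2⟩, h3⟩
      refine ⟨⟨h1, hV.antitone hkk' h2⟩, ?_⟩
      simp only [mem_Ici] at h3 ⊢
      omega
  have hEk : ∀ k, ∀ n ∈ E k, k ≤ n := by
    intro k n hn
    by_cases hk : k = 0
    · omega
    · rw [hEp k hk] at hn
      have := hn.2
      simp only [mem_Ici] at this
      omega
  have hall : ∀ B : Set ℕ, (∀ k, (B \ E k).Finite) → ∃ j, B ∈ K j := by
    intro B hB
    refine hL q hqL B ((tendsto_iff x B q).2 fun W hW => ?_)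
    obtain ⟨k, hk⟩ := hV.mem_iff.1 hW
    refine (hB (k + 1)).subset (sdiff_subset_sdiff_right ?_)
    rw [hEp (k + 1) (by omega)]
    exact fun n hn => hk (hV.antitone (Nat.le_succ k) hn.1.2)
  have hc1 : c \ E 1 = c := by
    refine Subset.antisymm sdiff_subset ?_
    calc c = c \ D := hcD.symm
      _ ⊆ c \ E 1 := sdiff_subset_sdiff_right (hED 1)
  obtain ⟨k, c', hk, hc'f, hc'E, hc'1, j, hj⟩ := key K hK E hanti hEk hall 1 c hcf hc1
  have hEk' := hEp k (by omega)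
  have hY2 := hq (interior (V k)) (interior_mem_nhds.2 (hV.mem k))
  have hfin : ∀ y ∈ {y ∈ Y | l y = l0} ∩ interior (V k), A y \ E k ∈ {a : Set ℕ | a.Finite} := by
    rintro y ⟨⟨hy, -⟩, hyV⟩
    have h1 := (tendsto_iff x (A y) y).1 (hA y (hY0 hy)) (V k) (mem_interior_iff_mem_nhds.1 hyV)
    have h2 : (A y \ D).Finite := by rw [hb y hy]; exact hbf
    refine ((h1.union h2).union (finite_Iio (max k l0))).subset ?_
    rw [hEk']
    rintro n ⟨hn, hn'⟩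
    by_contra hcon
    simp only [mem_union, Set.mem_sdiff, mem_Iio, not_or, not_and, not_not, not_lt] at hcon
    exact hn' ⟨⟨hcon.1.2 hn, hcon.1.1 hn⟩, hcon.2⟩
  obtain ⟨b', hb'f, hY3⟩ := exists_fiber hY2 (fun y => A y \ E k) Countable.ofPred_finite hfin
  obtain ⟨y, ⟨⟨hy, hyl⟩, -⟩, hyb⟩ :
      {y ∈ {y ∈ Y | l y = l0} ∩ interior (V k) | A y \ E k = b'}.Nonempty := by
    rw [nonempty_iff_ne_empty]
    intro h
    exact hY3 (h ▸ small_empty L)
  have hb'D : b' \ D = b := by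
    rw [← hyb, diff_diff_of_subset (hED k), hb y hy]
  have hc'D : c' \ D = c := by
    rw [← diff_diff_of_subset (hED 1), hc'1, hcD]
  have hb'E : b' \ E k = b' := by
    rw [← hyb, diff_diff_of_subset Subset.rfl]
  refine ⟨⟨{y ∈ {y ∈ Y | l y = l0} ∩ interior (V k) | A y \ E k = b'}, E k, b', c',
    d ∪ (b' ∩ D)⟩, ⟨hY3, fun z hz => hY0 hz.1.1.1, fun z hz => hz.2, hb'f, hc'f,
    hdf.union (Finite.subset hb'f inter_subset_left), hc'E, ?_, ?_⟩, hED k, hb'D, hc'D, ?_,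
    ⟨j, hj⟩, ?_⟩
  · dsimp only
    refine sdiff_eq_left.2 (disjoint_left.2 ?_)
    rintro n (hn | hn) hn'
    · rw [← hdD] at hn
      exact hn.2 (hED k hn')
    · have := hn.1
      rw [← hb'E] at this
      exact this.2 hn'
  · dsimp only
    intro n hn
    by_cases hnD : n ∈ D
    · exact Or.inr (Or.inr ⟨hn, hnD⟩)
    · have h1 : n ∈ b := hb'D ▸ ⟨hn, hnD⟩
      rcases hcov h1 with h | h
      · rw [← hc'D] at h
        exact Or.inl h.1
      · exact Or.inr (Or.inl h)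
  · dsimp only
    rw [union_sdiff_distrib, hdD]
    refine union_eq_left.2 ?_
    rintro n ⟨⟨_, hn⟩, hn'⟩
    exact absurd hn hn'
  · intro B hB
    dsimp only at hB
    refine hl y (hY0 hy) B fun n hn => ?_
    have hnE : n ∉ E k := by
      rw [hEk']
      rintro ⟨_, h⟩
      simp only [mem_Ici] at h
      omega
    constructor
    · intro h
      have : n ∈ b' := hB ▸ ⟨h, hnE⟩
      rw [← hyb] at this
      exact this.1
    · intro h
      have : n ∈ b' := hyb ▸ ⟨h, hnE⟩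
      rw [← hB] at this
      exact this.1

lemma two_step (x : ℕ → X) (L Y0 : Set X) (A : X → Set ℕ)
    (hA : ∀ y ∈ Y0, Tendsto x (atTop ⊓ 𝓟 (A y)) (𝓝 y))
    (K : ℕ → Set (Set ℕ)) (hK : ∀ j, Clsd (K j))
    (hL : ∀ q, q ∉ L → ∀ B : Set ℕ, Tendsto x (atTop ⊓ 𝓟 B) (𝓝 q) → ∃ j, B ∈ K j)
    (M : Set (Set ℕ)) (hM : Clsd M) (hAM : ∀ y ∈ Y0, A y ∉ M)
    (s : St X) (hs : Inv L Y0 A s) :
    ∃ t : St X, Inv L Y0 A t ∧ (t.D ⊆ s.D ∧ t.b \ s.D = s.b ∧ t.c \ s.D = s.c ∧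
      t.d \ s.D = s.d ∧ (∃ j, ∀ B : Set ℕ, B \ t.D = t.c → B ∈ K j) ∧
      (∃ j, ∀ B : Set ℕ, B \ t.D = t.d → B ∈ K j) ∧
      ∀ B : Set ℕ, B \ t.D = t.b → B ∉ M) := by
  obtain ⟨t, ht, h1, h2, h3, h4, ⟨j, hj⟩, -⟩ := one_step x L Y0 A hA K hK hL M hM hAM s hs
  have ht' : Inv L Y0 A ⟨t.Y, t.D, t.b, t.d, t.c⟩ := by
    obtain ⟨a1, a2, a3, a4, a5, a6, a7, a8, a9⟩ := ht
    exact ⟨a1, a2, a3, a4, a6, a5, a8, a7, by rw [union_comm]; exact a9⟩
  obtain ⟨u, hu, g1, g2, g3, g4, g5, g6⟩ := one_step x L Y0 A hA K hK hL M hM hAM _ ht'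
  dsimp only at g1 g2 g3 g4
  refine ⟨⟨u.Y, u.D, u.b, u.d, u.c⟩, ?_, g1.trans h1, ?_, ?_, ?_, ⟨j, fun B hB => hj B ?_⟩,
    g5, g6⟩
  · obtain ⟨a1, a2, a3, a4, a5, a6, a7, a8, a9⟩ := hu
    exact ⟨a1, a2, a3, a4, a6, a5, a8, a7, by rw [union_comm]; exact a9⟩
  · dsimp only
    rw [← diff_diff_of_subset h1, g2, h2]
  · dsimp only
    rw [← diff_diff_of_subset h1, g4, h3]
  · dsimp only
    rw [← diff_diff_of_subset h1, g3, h4]
  · dsimp only at hB
    rw [← diff_diff_of_subset g1, hB, g4]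

theorem small_limit_points (I : Set (Set ℕ))
    (hsub : ∀ A ∈ I, ∀ B : Set ℕ, B ⊆ A → B ∈ I) (hun : ∀ A ∈ I, ∀ B ∈ I, A ∪ B ∈ I)
    (K : ℕ → ℕ → Set (Set ℕ)) (hK : ∀ i j, Clsd (K i j))
    (hI : ∀ A, A ∈ I ↔ ∀ i, ∃ j, A ∈ K i j) (x : ℕ → X) :
    Small {ℓ : X | ∃ A : Set ℕ, A ∉ I ∧ Tendsto x (atTop ⊓ 𝓟 A) (𝓝 ℓ)}
      {ℓ : X | ∃ A : Set ℕ, A ∉ I ∧ Tendsto x (atTop ⊓ 𝓟 A) (𝓝 ℓ)} := by
  set L := {ℓ : X | ∃ A : Set ℕ, A ∉ I ∧ Tendsto x (atTop ⊓ 𝓟 A) (𝓝 ℓ)} with hLdef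
  by_contra hcon
  have h0 : ∀ y ∈ L, ∃ A : Set ℕ, ∃ i, (∀ j, A ∉ K i j) ∧ Tendsto x (atTop ⊓ 𝓟 A) (𝓝 y) := by
    rintro y ⟨A, hA, hy⟩
    rw [hI] at hA
    push Not at hA
    obtain ⟨i, hi⟩ := hA
    exact ⟨A, i, hi, hy⟩
  choose! A i hi hA using h0
  obtain ⟨i0, -, hY0⟩ := exists_fiber hcon i countable_univ (fun _ _ => mem_univ _)
  have hL : ∀ n q, q ∉ L → ∀ B : Set ℕ, Tendsto x (atTop ⊓ 𝓟 B) (𝓝 q) → ∃ j, B ∈ K n j := by
    intro n q hq B hB
    have : B ∈ I := by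
      by_contra h
      exact hq ⟨B, h, hB⟩
    exact (hI B).1 this n
  obtain ⟨f, -, hP, hR⟩ := exists_seq (Inv L {y ∈ L | i y = i0} A) _
    ⟨{y ∈ L | i y = i0}, univ, ∅, ∅, ∅⟩
    ⟨hY0, Subset.rfl, fun y _ => by simp, finite_empty, finite_empty, finite_empty, by simp,
      by simp, by simp⟩
    (fun n s hs => two_step x L {y ∈ L | i y = i0} A (fun y hy => hA y hy.1) (K n) (hK n) (hL n)
      (K i0 n) (hK i0 n) (fun y hy => hy.2 ▸ hi y hy.1 n) s hs)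
  have hb := limit_diff (fun s => (f s).D) (fun s => (f s).b) (fun s => (hR s).1)
    (fun s => (hR s).2.1)
  have hc := limit_diff (fun s => (f s).D) (fun s => (f s).c) (fun s => (hR s).1)
    (fun s => (hR s).2.2.1)
  have hd := limit_diff (fun s => (f s).D) (fun s => (f s).d) (fun s => (hR s).1)
    (fun s => (hR s).2.2.2.1)
  have hcI : (⋃ t, (f t).c) ∈ I := (hI _).2 fun n => by
    obtain ⟨j, hj⟩ := (hR n).2.2.2.2.1
    exact ⟨j, hj _ (hc (n + 1))⟩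
  have hdI : (⋃ t, (f t).d) ∈ I := (hI _).2 fun n => by
    obtain ⟨j, hj⟩ := (hR n).2.2.2.2.2.1
    exact ⟨j, hj _ (hd (n + 1))⟩
  have hbI : (⋃ t, (f t).b) ∈ I := by
    refine hsub _ (hun _ hcI _ hdI) _ (iUnion_subset fun t => ?_)
    exact (hP t).2.2.2.2.2.2.2.2.trans
      (union_subset_union (subset_iUnion (fun t => (f t).c) t)
        (subset_iUnion (fun t => (f t).d) t))
  obtain ⟨j, hj⟩ := (hI _).1 hbI i0
  exact (hR j).2.2.2.2.2.2 _ (hb (j + 1)) hj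

end Main

open Classical in
/-- The characteristic function of a set of naturals. -/
noncomputable def chi (A : Set ℕ) : ℕ → Bool := fun n => decide (n ∈ A)

lemma clsd_of_isClosed (C : Set (ℕ → Bool)) (hC : IsClosed C) : Clsd {A | chi A ∈ C} := by
  intro A hA
  have h1 : Cᶜ ∈ 𝓝 (chi A) := hC.isOpen_compl.mem_nhds hA
  rw [nhds_pi, Filter.mem_pi] at h1
  obtain ⟨J, hJ, t, ht, hsub⟩ := h1
  obtain ⟨l, hl⟩ := hJ.bddAbove
  refine ⟨l + 1, fun B hB => hsub fun n hn => ?_⟩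
  have h2 : chi B n = chi A n := by
    have := hB n (Nat.lt_succ_of_le (hl hn))
    exact decide_eq_decide.2 this
  rw [h2]
  exact mem_of_mem_nhds (ht n)

theorem limit_points_fsigma (X : Type*) [TopologicalSpace X] [SecondCountableTopology X]
    (I : Set (Set ℕ))
    (hsub : ∀ A ∈ I, ∀ B : Set ℕ, B ⊆ A → B ∈ I) (hun : ∀ A ∈ I, ∀ B ∈ I, A ∪ B ∈ I)
    (C : ℕ → ℕ → Set (ℕ → Bool)) (hC : ∀ i j, IsClosed (C i j))
    (hI : {f : ℕ → Bool | {n : ℕ | f n = true} ∈ I} = ⋂ i, ⋃ j, C i j) (x : ℕ → X) :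
    ∃ D : ℕ → Set X, (∀ j, IsClosed (D j)) ∧
      {ℓ : X | ∃ A : Set ℕ, A ∉ I ∧ Tendsto x (atTop ⊓ 𝓟 A) (𝓝 ℓ)} = ⋃ j, D j := by
  have hI' : ∀ A, A ∈ I ↔ ∀ i, ∃ j, A ∈ {A | chi A ∈ C i j} := by
    intro A
    have h1 : {n : ℕ | chi A n = true} = A := by
      ext n
      simp [chi]
    have h2 : chi A ∈ {f : ℕ → Bool | {n : ℕ | f n = true} ∈ I} ↔ A ∈ I := by
      rw [mem_ofPred_eq, h1]
    rw [← h2, hI]
    simp
  obtain ⟨S, hS, hcl, hcov⟩ := small_limit_points I hsub hun (fun i j => {A | chi A ∈ C i j})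
    (fun i j => clsd_of_isClosed _ (hC i j)) hI' x
  obtain ⟨D, hD⟩ := (hS.insert ∅).exists_eq_range (insert_nonempty _ _)
  have hmem : ∀ j, D j ∈ insert ∅ S := fun j => hD ▸ mem_range_self j
  refine ⟨D, fun j => ?_, Subset.antisymm ?_ (iUnion_subset fun j => ?_)⟩
  · rcases hmem j with h | h
    · rw [h]; exact isClosed_empty
    · exact (hcl _ h).1
  · intro y hy
    obtain ⟨s, hs, hys⟩ := hcov hy
    have : s ∈ range D := hD ▸ mem_insert_of_mem _ hs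
    obtain ⟨j, rfl⟩ := this
    exact mem_iUnion.2 ⟨j, hys⟩
  · rcases hmem j with h | h
    · rw [h]; exact empty_subset _
    · exact (hcl _ h).2

end Pool.Agent.Lib.MP_d33a1c_lc
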